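import Mathlib
import Pool.Agent.Lib.MP_dd2a7c_co.Final

/-!
# Polynomial Freiman–Ruzsa over general abelian groups, up to a double logarithm
-/

namespace Pool.Agent.Results.MP_dd2a7c_co.LogLog

open Pool.Agent.Lib.MP_dd2a7c_co
open Pointwise

universe u

theorem result :
    ∃ C : ℝ, 0 < C ∧ ∀ (Γ : Type u) [AddCommGroup Γ] [DecidableEq Γ] (K : ℝ) (A : Finset Γ),
      A.Nonempty → ((A + A).card : ℝ) ≤ K * A.card →
      ∃ (Q : CosetProg Γ) (T : Finset Γ), (Q.dim : ℝ) ≤ C * Real.log (2 * K) ∧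
        Q.vol ≤ A.card ∧ (T.card : ℝ) ≤ (2 * K) ^ (C * Real.log (2 + Real.log (2 * K))) ∧
        CoveredBy A T Q := by
  obtain ⟨C₂, hC₂, h₂⟩ := lawToSetStmt.{u}
  exact assemble hC₂ (one_le_pow₀ (by norm_num)) (by norm_num) h₂ growthStmt shrinkStmt

end Pool.Agent.Results.MP_dd2a7c_co.LogLog
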