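import Mathlib
import Pool.Agent.Lib.MP_dd2a7c_co.PolyAssemble
import Pool.Agent.Lib.MP_dd2a7c_co.LawToSetTwo
import Pool.Agent.Lib.MP_dd2a7c_co.WeakPFR

/-!
# Polynomially many translates of a coset progression of logarithmic dimension
-/

namespace Pool.Agent.Results.MP_dd2a7c_co.PolyCover

open Pool.Agent.Lib.MP_dd2a7c_co
open Pointwise

universe u

/-- A finite set of doubling at most `K` in an abelian group is covered by `(2K)^(C / ε)` translates
of a centered convex coset progression of dimension at most `(C / ε) log (2K)` and of volume at most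
`exp ((C / ε) (log (2K))^(1 + ε)) |A|`. -/
theorem result :
    ∃ C : ℝ, 0 < C ∧ ∀ (Γ : Type u) [AddCommGroup Γ] [DecidableEq Γ] (ε : ℝ), 0 < ε → ε ≤ 1 →
      ∀ (K : ℝ) (A : Finset Γ), A.Nonempty → ((A + A).card : ℝ) ≤ K * A.card →
      ∃ (Q : CosetProg Γ) (T : Finset Γ), (Q.dim : ℝ) ≤ C / ε * Real.log (2 * K) ∧
        (Q.vol : ℝ) ≤ Real.exp (C / ε * Real.log (2 * K) ^ (1 + ε)) * A.card ∧
        (T.card : ℝ) ≤ (2 * K) ^ (C / ε) ∧ CoveredBy A T Q := by
  obtain ⟨C₂, hC₂, h₂⟩ := exists_set_of_law_two.{u}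
  obtain ⟨C₄, hC₄, h₄⟩ := weak_pfr.{u}
  refine assemble_poly hC₂ hC₄ ?_ ?_ ?_
  · intro Γ _ _ A hA K κ₁ κ n j τ
    exact h₂ A hA K κ₁ κ n j τ
  · intro Γ _ _ S κ N h0 hneg hκ hN hg
    exact exists_proper_prog_of_growth S h0 hneg κ N hκ hN hg
  · intro G _ _ d π A K
    exact h₄ π A K

end Pool.Agent.Results.MP_dd2a7c_co.PolyCover
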