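import Pool.Agent.Lib.MP_dd2a7c_co.WpFinal

namespace Pool.Agent.Results.MP_dd2a7c_co.SmoothTorsion

open Finset
open scoped Pointwise

/-- Weak polynomial Freiman-Ruzsa theorem in abelian groups without `p`-torsion for `p > P`. -/
theorem result.{u} : ∃ C : ℝ, 0 < C ∧ ∀ (Γ : Type u) [AddCommGroup Γ] [DecidableEq Γ] (P : ℕ),
    2 ≤ P → (∀ p : ℕ, p.Prime → P < p → ∀ g : Γ, p • g = 0 → g = 0) →
    ∀ (K : ℝ) (A : Finset Γ), A.Nonempty → ((A + A).card : ℝ) ≤ K * A.card →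
    ∃ (H : AddSubgroup Γ) (S T : Finset Γ), (H : Set Γ).Finite ∧ Nat.card H ≤ A.card ∧
      (Set.ncard ((A : Set Γ) + (H : Set Γ)) : ℝ) ≤ (2 * K) ^ (C * Real.log P) * A.card ∧
      (S.card : ℝ) ≤ C * Real.log (2 * K) ∧
      (T.card : ℝ) ≤ (2 * K) ^ (C * Real.log P) ∧
      (A : Set Γ) ⊆ (T : Set Γ) + (AddSubgroup.closure (S : Set Γ) : Set Γ) + (H : Set Γ) :=
  Pool.Agent.Lib.MP_dd2a7c_co.smooth_final

end Pool.Agent.Results.MP_dd2a7c_co.SmoothTorsion
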